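import Mathlib
import Pool.Agent.Y371.KS.Loc

open Finset

namespace Pool.Agent.Results.MP_927be3_nt.LocalObstructions

/-- The arithmetic `k`-sphere `S_{k,d}(r)` of radius `r` in dimension `d`. -/
def sphere (k d : ℕ) (r : ℝ) : Set (Fin d → ℤ) := {m | ∑ i, |(m i : ℝ)| ^ k = r ^ k}

/-- `N_{k,d}(r) ≍ r^{d-k}`: there are `0 < c ≤ C` and `r₀` with `c r^{d-k} ≤ N_{k,d}(r) ≤ C r^{d-k}`
for all radii `r ≥ r₀`, `r > 0`, with non-empty `S_{k,d}(r)`. -/
def OrderHolds (k d : ℕ) : Prop :=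
  ∃ c C r₀ : ℝ, 0 < c ∧ c ≤ C ∧ ∀ r : ℝ, 0 < r → r₀ ≤ r → (sphere k d r).Nonempty →
    c * r ^ ((d : ℝ) - k) ≤ ((sphere k d r).ncard : ℝ) ∧
      ((sphere k d r).ncard : ℝ) ≤ C * r ^ ((d : ℝ) - k)

/-- Lower bounds for `d_0(k)`, `k ≥ 3`, from local obstructions: if the order of magnitude
`N_{k,d}(r) ≍ r^{d-k}` holds in dimension `d`, then `d ≥ p^(t+1)` for every prime `p` with
`p^t (p - 1) ∣ k`, and `d ≥ 2^(t+2)` for every `t ≥ 1` with `2^t ∣ k`; in particular `d ≥ 4 k` if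
`k` is a power of `2`. -/
theorem result (k : ℕ) (hk : 3 ≤ k) (d : ℕ) (hd : 1 ≤ d) (h : OrderHolds k d) :
    (∀ p t : ℕ, p.Prime → p ^ t * (p - 1) ∣ k → p ^ (t + 1) ≤ d) ∧
    (∀ t : ℕ, 1 ≤ t → 2 ^ t ∣ k → 2 ^ (t + 2) ≤ d) ∧
    (∀ t : ℕ, k = 2 ^ t → 4 * k ≤ d) := by
  obtain ⟨c, C, r₀, hc, _, h⟩ := h
  have H : Pool.Agent.TH854.KS.Holds k d := ⟨c, C, r₀, hc, h⟩
  have lt2 : ∀ t : ℕ, t < 2 ^ t := fun t => Nat.lt_two_pow_self
  have h2 : ∀ t : ℕ, 1 ≤ t → 2 ^ t ∣ k → 2 ^ (t + 2) ≤ d := by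
    intro t ht htk
    apply Pool.Agent.Y371.KS.fails_local Nat.prime_two hk _ hd
      (fun x hx => Pool.Agent.Y371.KS.odd_pow ht htk hx) H
    have h1 : 2 ^ t ≤ k := Nat.le_of_dvd (by omega) htk
    rcases Nat.lt_or_ge t 2 with h' | h'
    · have : t = 1 := by omega
      subst this
      have : k ≠ 3 := by
        rintro rfl
        revert htk
        decide
      omega
    · have h3 : t + 2 ≤ 2 ^ t := by
        have : ∀ n : ℕ, 2 ≤ n → n + 2 ≤ 2 ^ n := by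
          intro n hn
          induction n, hn using Nat.le_induction with
          | base => norm_num
          | succ n hn ih => rw [pow_succ]; omega
        exact this t h'
      omega
  refine ⟨?_, h2, ?_⟩
  · intro p t hp hdvd
    apply Pool.Agent.Y371.KS.fails_local hp hk _ hd
      (fun x hx => Pool.Agent.Y371.KS.unit_pow hp hdvd hx) H
    have h1 : p ^ t ∣ k := (Dvd.intro _ rfl).trans hdvd
    have h3 : p ^ t ≤ k := Nat.le_of_dvd (by omega) h1
    have h4 : 2 ^ t ≤ p ^ t := Nat.pow_le_pow_left hp.two_le t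
    have := lt2 t
    omega
  · rintro t rfl
    have ht : 1 ≤ t := by
      rcases Nat.eq_zero_or_pos t with h' | h'
      · subst h'
        norm_num at hk
      · exact h'
    have := h2 t ht dvd_rfl
    rw [pow_add] at this
    omega

end Pool.Agent.Results.MP_927be3_nt.LocalObstructions
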